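import Mathlib
import Pool.Agent.H68R2.BP.Props2
import Pool.Agent.H880R2.KZ.Exh
import Pool.Agent.H495R2.KZ.WLim

/-!
Gluing of contractive projections onto central pieces.
-/

open scoped ComplexOrder InnerProductSpace ComplexConjugate Topology
open Finset Filter

noncomputable section

namespace H68R2.BP

open H759R2.Kad H744R2.KZ

namespace G_glueaux

variable {H : Type} [NormedAddCommGroup H] [InnerProductSpace ℂ H] [CompleteSpace H]

theorem norm_pr {p : H →L[ℂ] H} (hp : IsPr p) : ‖p‖ ≤ 1 := by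
  refine ContinuousLinearMap.opNorm_le_bound _ zero_le_one fun x => ?_
  rw [one_mul]
  exact C_exhaux.norm_pr_le hp.1 hp.2 x

theorem norm_comp {p : H →L[ℂ] H} (hp : IsPr p) (x : H →L[ℂ] H) : ‖p * x * p‖ ≤ ‖x‖ := by
  calc ‖p * x * p‖ ≤ ‖p * x‖ * ‖p‖ := norm_mul_le _ _
    _ ≤ (‖p‖ * ‖x‖) * ‖p‖ := mul_le_mul_of_nonneg_right (norm_mul_le _ _) (norm_nonneg _)
    _ ≤ (1 * ‖x‖) * 1 := by
        apply mul_le_mul (mul_le_mul_of_nonneg_right (norm_pr hp) (norm_nonneg _)) (norm_pr hp)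
          (norm_nonneg _) (by positivity)
    _ = ‖x‖ := by ring

theorem pr_compl {p : H →L[ℂ] H} (hp : IsPr p) : IsPr (1 - p) := by
  refine ⟨by rw [star_sub, star_one, hp.1], ?_⟩
  rw [mul_sub, mul_one, sub_mul, one_mul, hp.2]
  abel

theorem norm_block {z A B : H →L[ℂ] H} {C : ℝ} (hz : IsPr z) (hA : ‖A‖ ≤ C) (hB : ‖B‖ ≤ C)
    (a1 : z * A = A) (a2 : A * z = A) (b1 : z * B = 0) (b2 : B * z = 0) : ‖A + B‖ ≤ C := by
  have hC : 0 ≤ C := (norm_nonneg _).trans hA
  have hw := pr_compl hz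
  have h12 : z * (1 - z) = 0 := by rw [mul_sub, mul_one, hz.2, sub_self]
  have key := C_exhaux.two_pr (p1 := z) (p2 := 1 - z) (b := A + B) hC hz.1 hz.2 hw.1 hw.2 h12
    (by rw [add_mul, mul_add, a1, a2, b1, b2])
    (by rw [mul_sub, sub_mul, mul_one, one_mul, add_mul, mul_add, a1, a2, b1, b2])
    (by
      intro x
      have e : (A + B) (z x) = A (z x) := by
        have : B (z x) = (B * z) x := rfl
        rw [add_apply, this, b2]
        simp
      rw [e]
      exact (A.le_opNorm _).trans (mul_le_mul_of_nonneg_right hA (norm_nonneg _)))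
    (by
      intro x
      have e : (A + B) ((1 - z) x) = B ((1 - z) x) := by
        have h1 : A ((1 - z) x) = (A * (1 - z)) x := rfl
        rw [add_apply, h1, mul_sub, mul_one, a2, sub_self]
        simp
      rw [e]
      exact (B.le_opNorm _).trans (mul_le_mul_of_nonneg_right hB (norm_nonneg _)))
  have e : (A + B) * (z + (1 - z)) = A + B := by rw [add_sub_cancel, mul_one]
  rwa [e] at key

theorem cp_comm {M : VonNeumannAlgebra H} {z m : H →L[ℂ] H} (hz : IsCP M z) (hm : m ∈ M) :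
    z * m = m * z := hz.2.2 m hm

/-- normalised version of `CPr` -/
theorem cpr_norm {M : VonNeumannAlgebra H} {z : H →L[ℂ] H} (hz : IsCP M z) (h : CPr M z) :
    ∃ Q : (H →L[ℂ] H) →ₗ[ℂ] (H →L[ℂ] H), (∀ x, ‖Q x‖ ≤ ‖x‖) ∧ (∀ x, Q x ∈ M ∧ z * Q x = Q x) ∧
      ∀ m ∈ M, Q m = z * m := by
  obtain ⟨Q, h1, h2, h3⟩ := h
  refine ⟨Q.comp ((LinearMap.mulLeft ℂ z).comp (LinearMap.mulRight ℂ z)), ?_, ?_, ?_⟩
  · intro x
    refine (h1 _).trans ?_
    have e : ((LinearMap.mulLeft ℂ z).comp (LinearMap.mulRight ℂ z)) x = z * x * z := by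
      simp [mul_assoc]
    rw [e]
    exact norm_comp hz.1 x
  · intro x
    exact h2 _
  · intro m hm
    have e : ((LinearMap.mulLeft ℂ z).comp (LinearMap.mulRight ℂ z)) m = z * m := by
      simp only [LinearMap.comp_apply, LinearMap.mulLeft_apply, LinearMap.mulRight_apply]
      rw [← cp_comm hz hm, ← mul_assoc, hz.1.2]
    rw [LinearMap.comp_apply, e]
    apply h3 _ (mul_mem hz.2.1 hm)
    rw [← mul_assoc, hz.1.2]

theorem join_cp {M : VonNeumannAlgebra H} {z1 z2 : H →L[ℂ] H} (h1 : IsCP M z1) (h2 : IsCP M z2) :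
    IsCP M (z1 + z2 - z1 * z2) := by
  have hc : z1 * z2 = z2 * z1 := cp_comm h1 h2.2.1
  refine ⟨⟨?_, ?_⟩, ?_, ?_⟩
  · rw [star_sub, star_add, star_mul, h1.1.1, h2.1.1, hc]
  · have e1 := h1.1.2
    have e2 := h2.1.2
    have t1 : z1 * (z1 + z2 - z1 * z2) = z1 := by
      rw [mul_sub, mul_add, e1, ← mul_assoc, e1]; abel
    have t2 : z2 * (z1 + z2 - z1 * z2) = z2 := by
      rw [mul_sub, mul_add, e2, hc, ← mul_assoc, e2]; abel
    calc (z1 + z2 - z1 * z2) * (z1 + z2 - z1 * z2)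
        = z1 * (z1 + z2 - z1 * z2) + z2 * (z1 + z2 - z1 * z2) -
            z1 * (z2 * (z1 + z2 - z1 * z2)) := by rw [sub_mul, add_mul, mul_assoc]
      _ = z1 + z2 - z1 * z2 := by rw [t1, t2]
  · exact sub_mem (add_mem h1.2.1 h2.2.1) (mul_mem h1.2.1 h2.2.1)
  · intro a ha
    have e1 := cp_comm h1 ha
    have e2 := cp_comm h2 ha
    rw [sub_mul, add_mul, mul_sub, mul_add, e1, e2, mul_assoc, e2, ← mul_assoc, e1, mul_assoc]

theorem join_mul {M : VonNeumannAlgebra H} {z1 z2 : H →L[ℂ] H} (h1 : IsCP M z1)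
    (h2 : IsCP M z2) :
    (z1 + z2 - z1 * z2) * z1 = z1 ∧ (z1 + z2 - z1 * z2) * z2 = z2 := by
  have hc : z1 * z2 = z2 * z1 := cp_comm h1 h2.2.1
  constructor
  · rw [sub_mul, add_mul, h1.1.2, mul_assoc, ← hc, ← mul_assoc, h1.1.2]; abel
  · rw [sub_mul, add_mul, h2.1.2, mul_assoc, h2.1.2]; abel

theorem join_cpr {M : VonNeumannAlgebra H} {z1 z2 : H →L[ℂ] H} (h1 : IsCP M z1)
    (h2 : IsCP M z2) (c1 : CPr M z1) (c2 : CPr M z2) : CPr M (z1 + z2 - z1 * z2) := by
  obtain ⟨Q1, p1, p2, p3⟩ := cpr_norm h1 c1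
  obtain ⟨Q2, q1, q2, q3⟩ := cpr_norm h2 c2
  set w : H →L[ℂ] H := 1 - z1 with hw
  have hwp : IsPr w := pr_compl h1.1
  have hwM : w ∈ M := sub_mem (one_mem M) h1.2.1
  have zw : z1 * w = 0 := by rw [hw, mul_sub, mul_one, h1.1.2, sub_self]
  have wz : w * z1 = 0 := by rw [hw, sub_mul, one_mul, h1.1.2, sub_self]
  have wcomm : ∀ m ∈ M, w * m = m * w := by
    intro m hm
    rw [hw, sub_mul, mul_sub, one_mul, mul_one, cp_comm h1 hm]
  obtain ⟨cp, hcpa⟩ : ∃ cp : (H →L[ℂ] H) →ₗ[ℂ] (H →L[ℂ] H), ∀ x, cp x = w * x * w :=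
    ⟨(LinearMap.mulLeft ℂ w).comp (LinearMap.mulRight ℂ w), fun x => by simp [mul_assoc]⟩
  have hz := join_cp h1 h2
  set z : H →L[ℂ] H := z1 + z2 - z1 * z2 with hzdef
  obtain ⟨j1, j2⟩ := join_mul h1 h2
  rw [← hzdef] at j1 j2
  refine ⟨Q1 + cp.comp (Q2.comp cp), ?_, ?_, ?_⟩
  · intro x
    have e : (Q1 + cp.comp (Q2.comp cp)) x = Q1 x + w * Q2 (w * x * w) * w := by
      rw [LinearMap.add_apply, LinearMap.comp_apply, hcpa, LinearMap.comp_apply, hcpa]
    rw [e]
    apply norm_block h1.1 (p1 x)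
    · exact (norm_comp hwp _).trans ((q1 _).trans (norm_comp hwp _))
    · exact (p2 x).2
    · rw [← cp_comm h1 (p2 x).1]; exact (p2 x).2
    · rw [← mul_assoc, ← mul_assoc, zw, zero_mul, zero_mul]
    · rw [mul_assoc, wz, mul_zero]
  · intro x
    have e : (Q1 + cp.comp (Q2.comp cp)) x = Q1 x + w * Q2 (w * x * w) * w := by
      rw [LinearMap.add_apply, LinearMap.comp_apply, hcpa, LinearMap.comp_apply, hcpa]
    rw [e]
    refine ⟨add_mem (p2 x).1 (mul_mem (mul_mem hwM (q2 _).1) hwM), ?_⟩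
    rw [mul_add]
    congr 1
    · calc z * Q1 x = z * (z1 * Q1 x) := by rw [(p2 x).2]
        _ = Q1 x := by rw [← mul_assoc, j1, (p2 x).2]
    · have hzw : z * w = w * z := cp_comm hz hwM
      set y := w * x * w
      calc z * (w * Q2 y * w) = (z * w) * Q2 y * w := by simp only [mul_assoc]
        _ = (w * z) * (z2 * Q2 y) * w := by rw [hzw, (q2 y).2]
        _ = w * ((z * z2) * Q2 y) * w := by simp only [mul_assoc]
        _ = w * Q2 y * w := by rw [j2, (q2 y).2]
  · intro m hm hzm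
    rw [LinearMap.add_apply, LinearMap.comp_apply, hcpa, LinearMap.comp_apply, hcpa, p3 m hm,
      q3 _ (mul_mem (mul_mem hwM hm) hwM)]
    have hw2 : w * w = w := hwp.2
    have hz2w : w * z2 = z2 * w := wcomm _ h2.2.1
    have e1 : w * (z2 * (w * m * w)) * w = w * (z2 * m) := by
      have a1 : m * w = w * m := (wcomm m hm).symm
      calc w * (z2 * (w * m * w)) * w = (w * z2) * (w * (m * w)) * w := by simp only [mul_assoc]
        _ = (z2 * w) * (w * (w * m)) * w := by rw [hz2w, a1]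
        _ = z2 * ((w * w) * w) * (m * w) := by simp only [mul_assoc]
        _ = z2 * w * (w * m) := by rw [hw2, hw2, a1]
        _ = (z2 * w) * w * m := by simp only [mul_assoc]
        _ = z2 * (w * w) * m := by simp only [mul_assoc]
        _ = (z2 * w) * m := by rw [hw2]
        _ = w * (z2 * m) := by rw [← hz2w, mul_assoc]
    have e2 : w * z = w * z2 := by
      rw [hzdef, mul_sub, mul_add, wz, ← mul_assoc, wz, zero_mul, zero_add, sub_zero]
    rw [e1]
    calc z1 * m + w * (z2 * m) = z1 * m + (w * z2) * m := by rw [mul_assoc]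
      _ = z1 * m + (w * z) * m := by rw [e2]
      _ = z1 * m + w * (z * m) := by rw [mul_assoc]
      _ = (z1 + w) * m := by rw [hzm, add_mul]
      _ = m := by rw [hw, add_sub_cancel, one_mul]

theorem mem_of_comm {M : VonNeumannAlgebra H} {S : H →L[ℂ] H}
    (h : ∀ t ∈ M.commutant, t * S = S * t) : S ∈ M := by
  have h1 : S ∈ M.commutant.commutant := by
    rw [VonNeumannAlgebra.mem_commutant_iff]
    intro t ht
    exact h t ht
  rwa [VonNeumannAlgebra.commutant_commutant] at h1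

/-- the central projections with a contractive projection -/
structure PZ (M : VonNeumannAlgebra H) : Type where
  z : H →L[ℂ] H
  cp : IsCP M z
  cpr : CPr M z

instance (M : VonNeumannAlgebra H) : Preorder (PZ M) where
  le a b := b.z * a.z = a.z
  le_refl a := a.cp.1.2
  le_trans a b c hab hbc := by
    change c.z * a.z = a.z
    have h1 : b.z * a.z = a.z := hab
    have h2 : c.z * b.z = b.z := hbc
    rw [← h1, ← mul_assoc, h2]

theorem PZ_le {M : VonNeumannAlgebra H} {a b : PZ M} : a ≤ b ↔ b.z * a.z = a.z := Iff.rfl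

instance (M : VonNeumannAlgebra H) : Nonempty (PZ M) :=
  ⟨⟨0, ⟨⟨star_zero _, by simp⟩, zero_mem M, by simp⟩, 0, by simp,
    fun x => ⟨by simpa using zero_mem M, by simp⟩, by
    intro m _ h; rw [zero_mul] at h; rw [← h]; rfl⟩⟩

instance (M : VonNeumannAlgebra H) : IsDirectedOrder (PZ M) where
  directed a b := ⟨⟨a.z + b.z - a.z * b.z, join_cp a.cp b.cp, join_cpr a.cp b.cp a.cpr b.cpr⟩,
    PZ_le.mpr (join_mul a.cp b.cp).1, PZ_le.mpr (join_mul a.cp b.cp).2⟩

end G_glueaux

open G_glueaux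

theorem prove_G_glue : G_glue := by
  intro H _ _ _ M hex
  choose Q p1 p2 p3 using fun z : PZ M => cpr_norm z.cp z.cpr
  obtain ⟨𝒰, h𝒰⟩ : ∃ 𝒰 : Ultrafilter (PZ M), (𝒰 : Filter (PZ M)) ≤ atTop :=
    ⟨Ultrafilter.of atTop, Ultrafilter.of_le atTop⟩
  choose S hS1 hS2 using fun x : H →L[ℂ] H =>
    prove_W_lim H (PZ M) 𝒰 (fun z => Q z x) ‖x‖ (fun z => p1 z x)
  have huniq : ∀ (A B : H →L[ℂ] H), (∀ u v : H, ⟪u, A v⟫_ℂ = ⟪u, B v⟫_ℂ) → A = B := by
    intro A B h
    ext v
    exact ext_inner_left ℂ (fun u => h u v)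
  let SL : (H →L[ℂ] H) →ₗ[ℂ] (H →L[ℂ] H) :=
    { toFun := S
      map_add' := by
        intro x y
        apply huniq
        intro u v
        have h1 := (hS2 x u v).add (hS2 y u v)
        have h2 := hS2 (x + y) u v
        have e : (fun z => ⟪u, Q z (x + y) v⟫_ℂ) =
            fun z => ⟪u, Q z x v⟫_ℂ + ⟪u, Q z y v⟫_ℂ := by
          funext z
          rw [map_add, ContinuousLinearMap.add_apply, inner_add_right]
        rw [e] at h2
        rw [tendsto_nhds_unique h2 h1, ContinuousLinearMap.add_apply, inner_add_right]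
      map_smul' := by
        intro c x
        apply huniq
        intro u v
        have h1 := (hS2 x u v).const_mul c
        have h2 := hS2 (c • x) u v
        have e : (fun z => ⟪u, Q z (c • x) v⟫_ℂ) = fun z => c * ⟪u, Q z x v⟫_ℂ := by
          funext z
          rw [map_smul, ContinuousLinearMap.smul_apply, inner_smul_right]
        rw [e] at h2
        rw [tendsto_nhds_unique h2 h1, RingHom.id_apply, ContinuousLinearMap.smul_apply,
          inner_smul_right] }
  have hSM : ∀ x, S x ∈ M := by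
    intro x
    apply mem_of_comm
    intro t ht
    apply huniq
    intro u v
    have h1 := hS2 x (star t u) v
    have h2 := hS2 x u (t v)
    have e : (fun z => ⟪star t u, Q z x v⟫_ℂ) = fun z => ⟪u, Q z x (t v)⟫_ℂ := by
      funext z
      rw [ContinuousLinearMap.star_eq_adjoint, ContinuousLinearMap.adjoint_inner_left]
      have hc : t * Q z x = Q z x * t := by
        have := VonNeumannAlgebra.mem_commutant_iff.mp ht (Q z x) (p2 z x).1
        exact this.symm
      have := congrArg (fun T : H →L[ℂ] H => T v) hc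
      simp only [ContinuousLinearMap.mul_apply] at this
      rw [this]
    rw [e] at h1
    have h3 := tendsto_nhds_unique h1 h2
    rw [ContinuousLinearMap.star_eq_adjoint, ContinuousLinearMap.adjoint_inner_left] at h3
    simpa [ContinuousLinearMap.mul_apply] using h3
  refine ⟨SL, hS1, fun x => ⟨hSM x, one_mul _⟩, ?_⟩
  intro m hm _
  change S m = m
  -- the difference vanishes on every piece
  have hpiece : ∀ z0 : PZ M, (S m - m) * z0.z = 0 := by
    intro z0
    apply huniq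
    intro u v
    have h1 := hS2 m u (z0.z v)
    have h2 : Tendsto (fun z : PZ M => ⟪u, Q z m (z0.z v)⟫_ℂ) 𝒰 (𝓝 ⟪u, m (z0.z v)⟫_ℂ) := by
      apply tendsto_const_nhds.congr'
      have hev : ∀ᶠ z : PZ M in (𝒰 : Filter (PZ M)), z0 ≤ z := h𝒰 (eventually_ge_atTop z0)
      filter_upwards [hev] with z hz
      have hz' : z.z * z0.z = z0.z := hz
      rw [p3 z m hm]
      have e : z.z * m * z0.z = m * z0.z := by
        rw [cp_comm z.cp hm, mul_assoc, hz']
      have := congrArg (fun T : H →L[ℂ] H => T v) e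
      simp only [ContinuousLinearMap.mul_apply] at this
      rw [ContinuousLinearMap.mul_apply, this]
    have h3 := tendsto_nhds_unique h1 h2
    rw [ContinuousLinearMap.mul_apply, ContinuousLinearMap.sub_apply, inner_sub_right, h3]
    simp
  have hb := prove_C_exh H M 1 (dg 1 (S m - m)) 0 le_rfl
    (by
      intro c hc
      rw [← C_exhaux.dg_mul, ← C_exhaux.dg_mul, cp_comm hc (sub_mem (hSM m) hm)])
    (by
      intro w hw hw0
      obtain ⟨z, hz1, hz2, hz3, hz4⟩ := hex w hw hw0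
      refine ⟨z, hz1, hz2, hz3, ?_⟩
      rw [← C_exhaux.dg_mul, hpiece ⟨z, hz1, hz4⟩, C_exhaux.dg_zero, norm_zero])
  have hb0 : dg 1 (S m - m) = 0 := norm_le_zero_iff.mp hb
  have hD : S m - m = 0 := by
    ext v
    have := congrArg (fun T : HH (Fin 1) H →L[ℂ] HH (Fin 1) H =>
      (T (WithLp.toLp 2 (fun _ => v))) 0) hb0
    simp only [dg_apply] at this
    simpa using this
  exact sub_eq_zero.mp hD

end H68R2.BP
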